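import Pool.Agent.P.MP_e5acfa_ag.Main

open Complex Set

namespace Pool.Agent.Results.MP_e5acfa_ag.BoundedModel

/-- complex n-space with the Euclidean norm -/
abbrev Cn (n : ℕ) := EuclideanSpace ℂ (Fin n)

/-- value of a polynomial at a point -/
noncomputable def ev {n : ℕ} (P : MvPolynomial (Fin n) ℂ) (x : Cn n) : ℂ :=
  MvPolynomial.eval (fun i => x i) P

/-- the polynomial map with the given components -/
noncomputable def polyMap {m n : ℕ} (φ : Fin n → MvPolynomial (Fin m) ℂ) (x : Cn m) : Cn n :=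
  WithLp.toLp 2 (fun i => ev (φ i) x)

/-- closed algebraic subset which near each of its points is cut out by n - 2 polynomials of its
ideal with independent differentials -/
def IsSmoothSurface {n : ℕ} (X : Set (Cn n)) : Prop :=
  (∃ S : Set (MvPolynomial (Fin n) ℂ), X = {x | ∀ P ∈ S, ev P x = 0}) ∧
  ∀ x ∈ X, ∃ (k : ℕ) (P : Fin k → MvPolynomial (Fin n) ℂ), k + 2 = n ∧
    (∀ j, ∀ y ∈ X, ev (P j) y = 0) ∧
    LinearIndependent ℂ (fun j => fun i => ev (MvPolynomial.pderiv i (P j)) x) ∧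
    ∀ᶠ y in nhds x, (∀ j, ev (P j) y = 0) → y ∈ X

/-- isomorphic to the affine plane as an algebraic variety -/
def IsoToPlane {n : ℕ} (X : Set (Cn n)) : Prop :=
  ∃ (φ : Fin n → MvPolynomial (Fin 2) ℂ) (ψ : Fin 2 → MvPolynomial (Fin n) ℂ),
    (∀ w, polyMap φ w ∈ X) ∧ (∀ w, polyMap ψ (polyMap φ w) = w) ∧
    ∀ x ∈ X, polyMap φ (polyMap ψ x) = x

/-- Zariski tangent vectors -/
def IsTangent {n : ℕ} (X : Set (Cn n)) (x ξ : Cn n) : Prop :=
  ∀ P : MvPolynomial (Fin n) ℂ, (∀ y ∈ X, ev P y = 0) →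
    ∑ i, ev (MvPolynomial.pderiv i P) x * ξ i = 0

/-- the truncation X_R -/
def trunc {n : ℕ} (X : Set (Cn n)) (R : ℝ) : Set (Cn n) := {x | x ∈ X ∧ ‖x‖ ^ 2 < R ^ 2}

/-- locally on A the restriction of a smooth map on an open set -/
def SmoothOn {m n : ℕ} (A : Set (Cn m)) (f : Cn m → Cn n) : Prop :=
  ∀ x ∈ A, ∃ (O : Set (Cn m)) (F : Cn m → Cn n), IsOpen O ∧ x ∈ O ∧
    ContDiffOn ℝ (⊤ : ℕ∞) F O ∧ EqOn F f (A ∩ O)

/-- locally on A the restriction of a holomorphic map on an open set -/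
def HolOn {m n : ℕ} (A : Set (Cn m)) (f : Cn m → Cn n) : Prop :=
  ∀ x ∈ A, ∃ (O : Set (Cn m)) (F : Cn m → Cn n), IsOpen O ∧ x ∈ O ∧
    DifferentiableOn ℂ F O ∧ EqOn F f (A ∩ O)

/-- mutually inverse bijections between A and B -/
def Inverse {m n : ℕ} (A : Set (Cn m)) (B : Set (Cn n)) (f : Cn m → Cn n) (g : Cn n → Cn m) : Prop :=
  MapsTo f A B ∧ MapsTo g B A ∧ (∀ x ∈ A, g (f x) = x) ∧ ∀ y ∈ B, f (g y) = y

def Diffeomorphic {m n : ℕ} (A : Set (Cn m)) (B : Set (Cn n)) : Prop :=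
  ∃ f g, Inverse A B f g ∧ SmoothOn A f ∧ SmoothOn B g

def Biholomorphic {m n : ℕ} (A : Set (Cn m)) (B : Set (Cn n)) : Prop :=
  ∃ f g, Inverse A B f g ∧ HolOn A f ∧ HolOn B g

/-- R lies beyond all critical values of the norm on X and X_R is diffeomorphic to X -/
def Admissible {n : ℕ} (X : Set (Cn n)) (R : ℝ) : Prop :=
  0 < R ∧ (∀ x ∈ X, R ≤ ‖x‖ → ∃ ξ, IsTangent X x ξ ∧ (inner ℂ x ξ).re ≠ 0) ∧
    Diffeomorphic (trunc X R) X

/-- real directional derivative of a function in the direction ξ, as a function of the point -/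
noncomputable def dd (ρ : Cn 2 → ℝ) (ξ : Cn 2) (w : Cn 2) : ℝ := fderiv ℝ ρ w ξ

/-- bounded domain with a smooth defining function whose Levi form is positive definite on the
complex tangent line at every boundary point -/
def IsBddStrictlyPsc (Ω : Set (Cn 2)) : Prop :=
  IsOpen Ω ∧ IsConnected Ω ∧ Bornology.IsBounded Ω ∧
  ∃ (O : Set (Cn 2)) (ρ : Cn 2 → ℝ), IsOpen O ∧ frontier Ω ⊆ O ∧ ContDiffOn ℝ (⊤ : ℕ∞) ρ O ∧
    Ω ∩ O = {w | w ∈ O ∧ ρ w < 0} ∧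
    ∀ w ∈ frontier Ω, (∃ ξ, dd ρ ξ w ≠ 0) ∧
      ∀ ξ : Cn 2, ξ ≠ 0 → dd ρ ξ w = 0 → dd ρ (I • ξ) w = 0 →
        0 < dd (dd ρ ξ) ξ w + dd (dd ρ (I • ξ)) (I • ξ) w

theorem result :
    ∃ (n : ℕ) (X : Set (Cn n)) (R : ℝ) (Ω : Set (Cn 2)),
      IsSmoothSurface X ∧ ContractibleSpace X ∧ ¬ IsoToPlane X ∧ Admissible X R ∧
      IsBddStrictlyPsc Ω ∧ Biholomorphic (trunc X R) Ω := by
  obtain ⟨n, X, R, Ω, h1, h2, h3, h4, ⟨a1, a2, a3, O, ρ, b1, b2, b3, b4, b5⟩, h6⟩ :=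
    Pool.Agent.P.MP_e5acfa_ag.goal
  refine ⟨n, X, R, Ω, h1, h2, h3, h4, ⟨a1, a2, a3, O, ρ, b1, b2, b3, b4, fun w hw => ?_⟩, h6⟩
  obtain ⟨c1, c2⟩ := b5 w hw
  have hd : DifferentiableAt ℝ (fderiv ℝ ρ) w :=
    ((b3.contDiffAt (b1.mem_nhds (b2 hw))).fderiv_right (m := 1) (by norm_cast)).differentiableAt
      (by norm_num)
  have key : ∀ ξ, dd (dd ρ ξ) ξ w = fderiv ℝ (fderiv ℝ ρ) w ξ ξ := by
    intro ξ
    change fderiv ℝ (fun y => fderiv ℝ ρ y ξ) w ξ = _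
    rw [fderiv_clm_apply hd (differentiableAt_const ξ)]
    simp
  refine ⟨?_, fun ξ h0 e1 e2 => ?_⟩
  · by_contra hc
    push Not at hc
    exact c1 (ContinuousLinearMap.ext hc)
  · rw [key, key]
    exact c2 ξ h0 e1 e2

end Pool.Agent.Results.MP_e5acfa_ag.BoundedModel
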